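import Pool.Agent.Q196.AB.Main

/-!
# Affine Baire-one maps into spaces with the approximation property

Q1: if `E` has the approximation property, then for every compact convex set `X` every affine map
`f : X → E` of the first Baire class is a pointwise limit of a sequence of continuous affine maps.

Outline.  `f` is bounded by the Baire category theorem, so `f` is the limit of a bounded sequence of
continuous maps `f n`.  By the Hahn-Banach theorem it is enough that each functional `μ` on
`C(X, E)` vanishing on the continuous affine maps satisfies `inf |μ (f n)| = 0`.  The functional is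
dominated by a positive measure `m`, `|μ g| ≤ ∫ ‖g‖ dm`.  After passing to a subsequence with
`∫ ‖f (n+1) - f n‖ dm ≤ 16 ^ (-n)` there is one compact subset `K` of `E` such that an operator of
finite rank which is close to the identity on `K` satisfies `∫ ‖f n - T f n‖ dm ≤ ε` for all `n`, so
only a metrically small error is made when `f n` is replaced by `T f n`; no bound for the norm of
`T` is needed.  For `T f n` the claim reduces to the scalar case, that is to the barycentric formula
for affine functions of the first Baire class, of which we include a proof.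
-/

namespace Pool.Agent.Results.MP_04557e_an.ApproximationProperty

open Filter Topology

/-- The approximation property: the identity is approximated on compact sets by bounded operators of
finite rank. -/
def HasAP (𝕜 : Type*) [RCLike 𝕜] (E : Type*) [NormedAddCommGroup E] [NormedSpace 𝕜 E] : Prop :=
  ∀ K : Set E, IsCompact K → ∀ ε > 0, ∃ T : E →L[𝕜] E,
    FiniteDimensional 𝕜 (LinearMap.range (T : E →ₗ[𝕜] E)) ∧ ∀ x ∈ K, ‖T x - x‖ < ε

variable {V E : Type*} [AddCommGroup V] [Module ℝ V] [TopologicalSpace V]
  [NormedAddCommGroup E] [NormedSpace ℝ E] {X : Set V}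

/-- `f` is affine: `f (t x + (1 - t) y) = t f x + (1 - t) f y` for `x, y ∈ X` and `t ∈ [0, 1]`. -/
def IsAffine (f : X → E) : Prop :=
  ∀ (x y z : X) (t : ℝ), 0 ≤ t → t ≤ 1 → (z : V) = t • (x : V) + (1 - t) • (y : V) →
    f z = t • f x + (1 - t) • f y

/-- `f ∈ C₁(X, E)`: `f` is a pointwise limit of a sequence of continuous maps. -/
def BaireOne (f : X → E) : Prop :=
  ∃ g : ℕ → X → E, (∀ n, Continuous (g n)) ∧ ∀ x, Tendsto (fun n => g n x) atTop (𝓝 (f x))

/-- `f ∈ 𝔄₁(X, E)`: `f` is a pointwise limit of a sequence of continuous affine maps. -/
def AffineBaireOne (f : X → E) : Prop :=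
  ∃ g : ℕ → X → E, (∀ n, Continuous (g n) ∧ IsAffine (g n)) ∧
    ∀ x, Tendsto (fun n => g n x) atTop (𝓝 (f x))

/-- **Q1.** Let `E` be a real or complex normed space with the approximation property and `X` a
compact convex subset of a real Hausdorff locally convex space. Then every affine map `f : X → E` of
the first Baire class is a pointwise limit of a sequence of continuous affine maps `X → E`. -/
theorem result (𝕜 : Type*) [RCLike 𝕜] (E : Type*) [NormedAddCommGroup E] [NormedSpace 𝕜 E]
    [NormedSpace ℝ E] [IsScalarTower ℝ 𝕜 E] (hE : HasAP 𝕜 E)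
    (V : Type*) [AddCommGroup V] [Module ℝ V] [TopologicalSpace V] [IsTopologicalAddGroup V]
    [ContinuousSMul ℝ V] [LocallyConvexSpace ℝ V] [T2Space V]
    (X : Set V) (hX : IsCompact X) (hconv : Convex ℝ X) (f : X → E) (hf : IsAffine f)
    (hf1 : BaireOne f) : AffineBaireOne f := by
  obtain ⟨g, hg, hl⟩ := hf1
  exact Pool.Agent.Q196.AB.main1 (Pool.Agent.Q196.AB.ap_real (𝕜 := 𝕜) hE) hX hconv f hf g hg hl

end Pool.Agent.Results.MP_04557e_an.ApproximationProperty
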